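import Mathlib
import Pool.Agent.TH775.AC.Stmts

/-!
# AC-5: `Re (1/m) > 2/(2-α)`
-/

set_option autoImplicit false

open Complex Metric Set

namespace Pool.Agent.TH775.AC

namespace AC5

theorem nrm (p b : ℝ) (u : ℂ) : ‖1 - (p : ℂ) * u‖ ^ 2 - ‖1 - (b : ℂ) * u‖ ^ 2 =
    (p - b) * ((p + b) * normSq u - 2 * u.re) := by
  rw [← Complex.normSq_eq_norm_sq, ← Complex.normSq_eq_norm_sq]
  simp only [Complex.normSq_apply, Complex.sub_re, Complex.sub_im, Complex.one_re, Complex.one_im,
    Complex.mul_re, Complex.mul_im, Complex.ofReal_re, Complex.ofReal_im]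
  ring

theorem w_pos {z : ℂ} (hz : z ∈ ball (0 : ℂ) 1) : 0 < ((1 + z) / (1 - z)).re := by
  rw [mem_ball_zero_iff] at hz
  have h1 : (1 - z) ≠ 0 := by
    intro h
    have : z = 1 := by linear_combination -h
    rw [this] at hz; simp at hz
  have h2 : 0 < normSq (1 - z) := normSq_pos.2 h1
  have h3 : normSq z < 1 := by
    rw [Complex.normSq_eq_norm_sq]
    nlinarith [norm_nonneg z]
  rw [Complex.div_re, ← add_div]
  apply div_pos _ h2
  simp only [Complex.normSq_apply] at h3
  simp only [Complex.add_re, Complex.add_im, Complex.sub_re, Complex.sub_im, Complex.one_re,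
    Complex.one_im]
  nlinarith

/-- the algebraic contradiction -/
theorem contra {α N c : ℝ} {n w : ℂ} (h0 : 0 < α) (hN1 : 1 < N) (hN2 : N < 2)
    (hN : N - 1 = α * N / 2) (hc : 0 < c) (hw : 0 < w.re) (hn : n.re = N)
    (h : (α : ℂ) * c = -(α * n * (w + 1) / 2) + (n + w - 1) * (n - 1)) : False := by
  have hre := congrArg Complex.re h
  have him := congrArg Complex.im h
  simp only [Complex.mul_re, Complex.mul_im, Complex.add_re, Complex.add_im, Complex.sub_re,
    Complex.sub_im, Complex.neg_re, Complex.neg_im, Complex.ofReal_re, Complex.ofReal_im,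
    Complex.one_re, Complex.one_im, Complex.div_ofNat_re, Complex.div_ofNat_im, hn] at hre him
  have h2 : n.im * (w.re * (1 - α / 2) + 2 * (N - 1) - α / 2) = 0 := by
    linear_combination -him - w.im * hN
  have h3 : 0 < w.re * (1 - α / 2) + 2 * (N - 1) - α / 2 := by
    have hα : α < 1 := by nlinarith
    nlinarith
  have h4 : n.im = 0 := by
    rcases mul_eq_zero.1 h2 with h | h
    · exact h
    · exact absurd h h3.ne'
  rw [h4] at hre
  have h5 : α * c = (N - 1) * (N - 2) := by
    linear_combination hre + (w.re + 1) * hN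
  nlinarith [mul_pos h0 hc]

end AC5

open AC5 in
theorem n1_of (hQ : S_QUOT) : S_N1 := by
  intro α L m h0 h1 hK
  obtain ⟨N, hNd⟩ : ∃ N : ℝ, N = 2 / (2 - α) := ⟨_, rfl⟩
  have h2α : 0 < 2 - α := by linarith
  have hN0 : N * (2 - α) = 2 := by rw [hNd]; field_simp
  have hN : N - 1 = α * N / 2 := by linarith
  have hN1 : 1 < N := by
    rw [hNd, lt_div_iff₀ h2α]; linarith
  have hN2 : N < 2 := by
    rw [hNd, div_lt_iff₀ h2α]; linarith
  obtain ⟨a, had⟩ : ∃ a : ℝ, a = (1 + α) - N := ⟨_, rfl⟩
  have ha : 0 < a := by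
    have : a * (2 - α) = α * (1 - α) := by rw [had]; linear_combination -hN0
    nlinarith [mul_pos h0 (sub_pos.2 h1)]
  have hb : 2 * N - (1 + α) = N - a := by rw [had]; ring
  have hp : 1 + α = N + a := by rw [had]; ring
  have hmd : ∀ z ∈ ball (0 : ℂ) 1, DifferentiableAt ℂ m z := fun z hz =>
    (hK.dm z hz).differentiableAt (isOpen_ball.mem_nhds hz)
  have key : ∀ z ∈ ball (0 : ℂ) 1, ‖1 - ((N + a : ℝ) : ℂ) * m z‖ <
      ‖1 - ((N - a : ℝ) : ℂ) * m z‖ := by
    refine hQ (fun z => 1 - ((N + a : ℝ) : ℂ) * m z) (fun z => 1 - ((N - a : ℝ) : ℂ) * m z)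
      ((differentiableOn_const _).sub ((differentiableOn_const _).mul hK.dm))
      ((differentiableOn_const _).sub ((differentiableOn_const _).mul hK.dm)) ?_ ?_ ?_
    · show 1 - ((N + a : ℝ) : ℂ) * m 0 = 0
      rw [hK.m0, ← hp]
      have : (1 + (α : ℂ)) ≠ 0 := by
        have : ((1 + α : ℝ) : ℂ) ≠ 0 := by
          rw [Complex.ofReal_ne_zero]; linarith
        push_cast at this
        exact this
      push_cast
      field_simp
      ring
    · rintro z hz ⟨hA, hB⟩
      have h3 : (a : ℂ) * m z = 0 := by
        have e1 : 1 - ((N + a : ℝ) : ℂ) * m z = 0 := hA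
        have e2 : 1 - ((N - a : ℝ) : ℂ) * m z = 0 := hB
        push_cast at e1 e2
        linear_combination (e2 - e1) / 2
      have h4 : m z = 0 := by
        rcases mul_eq_zero.1 h3 with h | h
        · rw [Complex.ofReal_eq_zero] at h; exact absurd h ha.ne'
        · exact h
      have e1 : 1 - ((N + a : ℝ) : ℂ) * m z = 0 := hA
      rw [h4] at e1
      simp at e1
    · intro z hz hz0 hAB k hk hrel
      have hAB' : ‖1 - ((N + a : ℝ) : ℂ) * m z‖ = ‖1 - ((N - a : ℝ) : ℂ) * m z‖ := hAB
      have dA : deriv (fun z => 1 - ((N + a : ℝ) : ℂ) * m z) z = -(((N + a : ℝ) : ℂ) * deriv m z) := by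
        rw [deriv_const_sub, deriv_const_mul _ (hmd z hz)]
      have dB : deriv (fun z => 1 - ((N - a : ℝ) : ℂ) * m z) z = -(((N - a : ℝ) : ℂ) * deriv m z) := by
        rw [deriv_const_sub, deriv_const_mul _ (hmd z hz)]
      rw [dA, dB] at hrel
      have hz1 : (1 - z) ≠ 0 := by
        intro h
        have : z = 1 := by linear_combination -h
        rw [this] at hz; simp at hz
      have hode := hK.ode z hz
      have hac : (a : ℂ) ≠ 0 := by rw [Complex.ofReal_ne_zero]; exact ha.ne'
      have hαc : (α : ℂ) ≠ 0 := by rw [Complex.ofReal_ne_zero]; exact h0.ne'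
      -- -2 a z m' = k A B
      have hrel2 : -2 * (a : ℂ) * (z * deriv m z) = k * ((1 - (N + a) * m z) * (1 - (N - a) * m z)) := by
        push_cast at hrel
        linear_combination hrel
      by_cases hm : m z = 0
      · rw [hm] at hrel2 hode
        have e1 : (α : ℂ) * (z * deriv m z) = 1 := by
          have : (1 - z) * ((α : ℂ) * (z * deriv m z) - 1) = 0 := by linear_combination hode
          rcases mul_eq_zero.1 this with h | h
          · exact absurd h hz1
          · linear_combination h
        have e2 : ((α * k : ℝ) : ℂ) = ((-(2 * a) : ℝ) : ℂ) := by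
          push_cast
          linear_combination (-(α : ℂ)) * hrel2 - 2 * (a : ℂ) * e1
        have e3 := Complex.ofReal_injective e2
        nlinarith [mul_pos h0 (show 0 < k by linarith)]
      · have hnsq : 0 < normSq (m z) := normSq_pos.2 hm
        have hx : (m z).re = N * normSq (m z) := by
          have h3 := nrm (N + a) (N - a) (m z)
          rw [hAB', sub_self] at h3
          have h4 : (N + a - (N - a)) ≠ 0 := by
            have : N + a - (N - a) = 2 * a := by ring
            rw [this]; positivity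
          rcases mul_eq_zero.1 h3.symm with h | h
          · exact absurd h h4
          · linarith
        have hnre : ((m z)⁻¹).re = N := by
          rw [Complex.inv_re, hx]
          field_simp
        obtain ⟨n, hn⟩ : ∃ n : ℂ, n = (m z)⁻¹ := ⟨_, rfl⟩
        have hmn : m z * n = 1 := by rw [hn]; exact mul_inv_cancel₀ hm
        rw [← hn] at hnre
        obtain ⟨w, hw⟩ : ∃ w : ℂ, w = (1 + z) / (1 - z) := ⟨_, rfl⟩
        have hwz : w * (1 - z) = 1 + z := by rw [hw]; field_simp
        have hwp : 0 < w.re := by rw [hw]; exact w_pos hz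
        obtain ⟨c, hc⟩ : ∃ c : ℝ, c = k * (a ^ 2 + n.im ^ 2) / (2 * a) := ⟨_, rfl⟩
        have hcp : 0 < c := by
          rw [hc]
          have : 0 < a ^ 2 + n.im ^ 2 := by positivity
          have : 0 < k := by linarith
          positivity
        have hc2 : 2 * a * c = k * (a ^ 2 + n.im ^ 2) := by rw [hc]; field_simp
        -- n = N + i η
        have hnN : (n - N) ^ 2 = -((n.im ^ 2 : ℝ) : ℂ) := by
          have : n - N = n.im * I := by
            apply Complex.ext <;> simp [hnre]
          rw [this, mul_pow, I_sq]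
          push_cast; ring
        -- θ m = c m²
        have hθ : z * deriv m z = c * (m z) ^ 2 := by
          have e1 : 2 * (a : ℂ) * (z * deriv m z) = 2 * a * c * (m z) ^ 2 := by
            have hc3 : 2 * (a : ℂ) * c = k * (a ^ 2 + ((n.im ^ 2 : ℝ) : ℂ)) := by
              have := congrArg (fun x : ℝ => (x : ℂ)) hc2
              push_cast at this ⊢
              exact this
            have e2 : (1 - (N + a) * m z) * (1 - (N - a) * m z) =
                (m z) ^ 2 * ((n - N) ^ 2 - a ^ 2) := by
              linear_combination (-(1 : ℂ) - m z * n + 2 * N * m z) * hmn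
            rw [hnN] at e2
            rw [hc3]
            linear_combination (-1 : ℂ) * hrel2 - (k : ℂ) * e2
          have h2a : 2 * (a : ℂ) ≠ 0 := mul_ne_zero two_ne_zero hac
          have e3 : 2 * (a : ℂ) * (z * deriv m z - c * (m z) ^ 2) = 0 := by
            linear_combination e1
          rcases mul_eq_zero.1 e3 with h | h
          · exact absurd h h2a
          · linear_combination h
        rw [hθ] at hode
        refine contra h0 hN1 hN2 hN hcp hwp hnre ?_
        have e4 : (1 - z) * ((α : ℂ) * c - (-(α * n * (w + 1) / 2) + (n + w - 1) * (n - 1))) = 0 := by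
          have e5 : (α : ℂ) * (1 - z) * c = -(α * n) + ((1 - z) * n + 2 * z) * (n - 1) := by
            linear_combination n ^ 2 * hode - ((α : ℂ) * (1 - z) * c * (m z * n + 1) + α * n +
              (1 - z) * n - 2 * z * n + 2 * z * (m z * n + 1)) * hmn
          linear_combination e5 + ((α : ℂ) * n / 2 - (n - 1)) * hwz
        rcases mul_eq_zero.1 e4 with h | h
        · exact absurd h hz1
        · linear_combination h
  intro z hz
  have hlt := key z hz
  have hm : m z ≠ 0 := by
    intro h
    rw [h] at hlt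
    simp at hlt
  refine ⟨hm, ?_⟩
  have hnsq : 0 < normSq (m z) := normSq_pos.2 hm
  have h3 := nrm (N + a) (N - a) (m z)
  have h4 : ‖1 - ((N + a : ℝ) : ℂ) * m z‖ ^ 2 < ‖1 - ((N - a : ℝ) : ℂ) * m z‖ ^ 2 :=
    pow_lt_pow_left₀ hlt (norm_nonneg _) two_ne_zero
  rw [← hNd, Complex.inv_re, lt_div_iff₀ hnsq]
  have h5 : (2 * a) * (2 * (N * normSq (m z) - (m z).re)) < 0 := by
    have : (N + a - (N - a)) * ((N + a + (N - a)) * normSq (m z) - 2 * (m z).re) =
      (2 * a) * (2 * (N * normSq (m z) - (m z).re)) := by ring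
    rw [← this, ← h3]
    linarith
  have h6 : 2 * (N * normSq (m z) - (m z).re) < 0 := by
    by_contra hcon
    push Not at hcon
    have := mul_nonneg (show 0 ≤ 2 * a by linarith) hcon
    linarith
  linarith

end Pool.Agent.TH775.AC
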