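import Mathlib
import Pool.Agent.TH775.AC.Stmts

/-!
# AC-2: first touching principles
-/

set_option autoImplicit false

open Complex Metric Set

namespace Pool.Agent.TH775.AC

theorem quot_of (hJ : S_JACK) : S_QUOT := by
  intro A B hA hB hA0 hAB hkey
  by_contra hcon
  push Not at hcon
  obtain ⟨z1, hz1, hle⟩ := hcon
  have hz1' : ‖z1‖ < 1 := by rwa [mem_ball_zero_iff] at hz1
  have hsub : closedBall (0 : ℂ) ‖z1‖ ⊆ ball 0 1 := closedBall_subset_ball hz1'
  have cA : ContinuousOn A (closedBall (0 : ℂ) ‖z1‖) := (hA.continuousOn).mono hsub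
  have cB : ContinuousOn B (closedBall (0 : ℂ) ‖z1‖) := (hB.continuousOn).mono hsub
  have hclosed : IsClosed {z ∈ closedBall (0 : ℂ) ‖z1‖ | ‖B z‖ ≤ ‖A z‖} :=
    isClosed_closedBall.isClosed_le cB.norm cA.norm
  have hcomp : IsCompact {z ∈ closedBall (0 : ℂ) ‖z1‖ | ‖B z‖ ≤ ‖A z‖} :=
    (isCompact_closedBall (0 : ℂ) ‖z1‖).of_isClosed_subset hclosed fun z hz => hz.1
  have hne : {z ∈ closedBall (0 : ℂ) ‖z1‖ | ‖B z‖ ≤ ‖A z‖}.Nonempty :=
    ⟨z1, by rw [mem_closedBall_zero_iff], hle⟩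
  obtain ⟨z0, hz0, hmin⟩ := hcomp.exists_isMinOn hne continuous_norm.continuousOn
  have hz01 : ‖z0‖ ≤ ‖z1‖ := by
    have := hz0.1
    rwa [mem_closedBall_zero_iff] at this
  have hz0D : z0 ∈ ball (0 : ℂ) 1 := hsub hz0.1
  have hB0 : B 0 ≠ 0 := fun h => hAB 0 (mem_ball_self one_pos) ⟨hA0, h⟩
  have hz0ne : z0 ≠ 0 := by
    intro h
    have := hz0.2
    rw [h, hA0, norm_zero] at this
    exact hB0 (norm_le_zero_iff.1 this)
  have hlt : ∀ z ∈ ball (0 : ℂ) ‖z0‖, ‖A z‖ ≤ ‖B z‖ := by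
    intro z hz
    rw [mem_ball_zero_iff] at hz
    by_contra hc
    push Not at hc
    have hzm : z ∈ {z ∈ closedBall (0 : ℂ) ‖z1‖ | ‖B z‖ ≤ ‖A z‖} :=
      ⟨by rw [mem_closedBall_zero_iff]; linarith, hc.le⟩
    have h2 : ‖z0‖ ≤ ‖z‖ := isMinOn_iff.1 hmin z hzm
    linarith
  have hsub0 : closedBall (0 : ℂ) ‖z0‖ ⊆ ball 0 1 :=
    closedBall_subset_ball (lt_of_le_of_lt hz01 hz1')
  have hle2 : ∀ z ∈ closedBall (0 : ℂ) ‖z0‖, ‖A z‖ ≤ ‖B z‖ := by
    intro z hz
    have hzc : z ∈ closure (ball (0 : ℂ) ‖z0‖) := by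
      rw [closure_ball (0 : ℂ) (norm_ne_zero_iff.2 hz0ne)]; exact hz
    have hzD := hsub0 hz
    have c1 : ContinuousWithinAt (fun z => ‖A z‖) (ball (0 : ℂ) ‖z0‖) z :=
      ((hA.continuousOn.continuousAt (isOpen_ball.mem_nhds hzD)).norm).continuousWithinAt
    have c2 : ContinuousWithinAt (fun z => ‖B z‖) (ball (0 : ℂ) ‖z0‖) z :=
      ((hB.continuousOn.continuousAt (isOpen_ball.mem_nhds hzD)).norm).continuousWithinAt
    exact ContinuousWithinAt.closure_le hzc c1 c2 hlt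
  have hz0c : z0 ∈ closedBall (0 : ℂ) ‖z0‖ := by rw [mem_closedBall_zero_iff]
  have heq : ‖A z0‖ = ‖B z0‖ := le_antisymm (hle2 z0 hz0c) hz0.2
  have hBne : ∀ z ∈ closedBall (0 : ℂ) ‖z0‖, B z ≠ 0 := by
    intro z hz h
    have h1 := hle2 z hz
    rw [h, norm_zero] at h1
    exact hAB z (hsub0 hz) ⟨norm_le_zero_iff.1 h1, h⟩
  have hdA : ∀ z ∈ closedBall (0 : ℂ) ‖z0‖, DifferentiableAt ℂ A z := fun z hz =>
    (hA z (hsub0 hz)).differentiableAt (isOpen_ball.mem_nhds (hsub0 hz))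
  have hdB : ∀ z ∈ closedBall (0 : ℂ) ‖z0‖, DifferentiableAt ℂ B z := fun z hz =>
    (hB z (hsub0 hz)).differentiableAt (isOpen_ball.mem_nhds (hsub0 hz))
  have hn : ∀ z ∈ closedBall (0 : ℂ) ‖z0‖, 0 < ‖B z‖ := fun z hz => norm_pos_iff.2 (hBne z hz)
  have hone : ‖A z0 / B z0‖ = 1 := by
    rw [norm_div, heq, div_self (hn z0 hz0c).ne']
  obtain ⟨k, hk, hrel⟩ := hJ (fun z => A z / B z) z0 hz0ne
    (fun z hz => (hdA z hz).div (hdB z hz) (hBne z hz)) (by simp [hA0])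
    (by
      intro h
      have h' : A z0 / B z0 = 0 := h
      rw [h', norm_zero] at hone
      exact zero_ne_one hone)
    (by
      intro z hz
      show ‖A z / B z‖ ≤ ‖A z0 / B z0‖
      rw [hone, norm_div, div_le_one (hn z hz)]
      exact hle2 z hz)
  have hder : deriv (fun z => A z / B z) z0 =
      (deriv A z0 * B z0 - A z0 * deriv B z0) / B z0 ^ 2 :=
    deriv_fun_div (hdA z0 hz0c) (hdB z0 hz0c) (hBne z0 hz0c)
  have hB0' := hBne z0 hz0c
  have hrel' : z0 * ((deriv A z0 * B z0 - A z0 * deriv B z0) / B z0 ^ 2) =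
      k * (A z0 / B z0) := by
    rw [← hder]; exact hrel
  refine hkey z0 hz0D hz0ne heq k hk ?_
  field_simp at hrel'
  linear_combination hrel'

theorem hp_of (hQ : S_QUOT) : S_HP := by
  intro q a ha hq hq0 hkey z hz
  have hac : (a : ℂ) ≠ 0 := by rw [Complex.ofReal_ne_zero]; exact ha.ne'
  have hqd : ∀ z ∈ ball (0 : ℂ) 1, DifferentiableAt ℂ q z := fun z hz =>
    (hq z hz).differentiableAt (isOpen_ball.mem_nhds hz)
  have nrm : ∀ u : ℂ, ‖u + (a : ℂ)‖ ^ 2 - ‖u - (a : ℂ)‖ ^ 2 = 4 * a * u.re := by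
    intro u
    rw [← Complex.normSq_eq_norm_sq, ← Complex.normSq_eq_norm_sq]
    simp only [Complex.normSq_apply, Complex.sub_re, Complex.sub_im, Complex.add_re,
      Complex.add_im, Complex.ofReal_re, Complex.ofReal_im]
    ring
  have key := hQ (fun z => q z - a) (fun z => q z + a) (hq.sub (differentiableOn_const _))
    (hq.add (differentiableOn_const _)) (by simp [hq0]) (by
      rintro z hz ⟨h1, h2⟩
      have e1 : q z - a = 0 := h1
      have e2 : q z + a = 0 := h2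
      apply hac
      linear_combination (e2 - e1) / 2) (by
      intro z hz hz0 hAB k hk hrel
      have dA : deriv (fun z => q z - (a : ℂ)) z = deriv q z := deriv_sub_const _
      have dB : deriv (fun z => q z + (a : ℂ)) z = deriv q z := deriv_add_const _
      rw [dA, dB] at hrel
      have hAB' : ‖q z - (a : ℂ)‖ = ‖q z + (a : ℂ)‖ := hAB
      have hre : (q z).re = 0 := by
        have h := nrm (q z)
        rw [hAB', sub_self] at h
        have h4 : 4 * a ≠ 0 := by positivity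
        rcases mul_eq_zero.1 h.symm with h | h
        · exact absurd h h4
        · exact h
      have hqi : q z ^ 2 = -(((q z).im ^ 2 : ℝ) : ℂ) := by
        have : q z = (q z).im * I := by
          apply Complex.ext <;> simp [hre]
        rw [this, mul_pow, I_sq]
        simp
      apply hkey z hz hz0 hre k hk
      have e : 2 * (a : ℂ) * (z * deriv q z) = 2 * a *
          ((-(k * (a ^ 2 + (q z).im ^ 2) / (2 * a)) : ℝ) : ℂ) := by
        have e1 : 2 * (a : ℂ) * ((-(k * (a ^ 2 + (q z).im ^ 2) / (2 * a)) : ℝ) : ℂ) =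
            -((k : ℂ) * (a ^ 2 + (((q z).im ^ 2 : ℝ) : ℂ))) := by
          push_cast
          field_simp
        rw [e1]
        linear_combination hrel + (k : ℂ) * hqi
      exact mul_left_cancel₀ (mul_ne_zero two_ne_zero hac) e) z hz
  have key' : ‖q z - (a : ℂ)‖ < ‖q z + (a : ℂ)‖ := key
  have h2 : ‖q z - (a : ℂ)‖ ^ 2 < ‖q z + (a : ℂ)‖ ^ 2 :=
    pow_lt_pow_left₀ key' (norm_nonneg _) two_ne_zero
  have h3 := nrm (q z)
  have h4 : 0 < 4 * a * (q z).re := by linarith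
  by_contra hc
  push Not at hc
  nlinarith

end Pool.Agent.TH775.AC
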